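import Pool.Agent.W763.PB.Stm

/-!
PB-F4: singularity from the absence of weakly mixing vectors.
-/

set_option autoImplicit false

open MeasureTheory Filter Topology
open scoped InnerProductSpace
open Pool.Agent.W763.PB

namespace Pool.Agent.W563.PB.F4

/-- integrals over a set which is null for the singular part -/
theorem int_key (μ lam : Measure ℂ) [IsFiniteMeasure μ] [IsFiniteMeasure lam] (s : Set ℂ)
    (hs : MeasurableSet s) (h1 : μ.singularPart lam s = 0) (h : ℂ → ℂ) (hh : Integrable h μ) :
    ∃ g : ℂ → ℂ, Integrable g lam ∧ ∀ n : ℕ,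
      ∫ z, z ^ n * (h z * s.indicator (fun _ => (1 : ℂ)) z) ∂μ = ∫ z, z ^ n * g z ∂lam := by
  set f : ℂ → ENNReal := μ.rnDeriv lam with hf
  have hfm : Measurable f := Measure.measurable_rnDeriv μ lam
  have hft : ∀ᵐ z ∂lam, f z < ⊤ := Measure.rnDeriv_lt_top μ lam
  have hres : μ.restrict s = (lam.withDensity f).restrict s := by
    conv_lhs => rw [← Measure.singularPart_add_rnDeriv μ lam]
    rw [Measure.restrict_add, Measure.restrict_eq_zero.2 h1, zero_add]
  have hind : ∀ F : ℂ → ℂ, Integrable F μ →
      Integrable (s.indicator F) (lam.withDensity f) := by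
    intro F hF
    rw [integrable_indicator_iff hs]
    have h2 : Integrable F (μ.restrict s) := hF.restrict
    rw [hres] at h2
    exact h2
  refine ⟨fun z => (f z).toReal • s.indicator h z, ?_, fun n => ?_⟩
  · exact (integrable_withDensity_iff_integrable_smul' hfm hft).1 (hind h hh)
  · have e1 : ∫ z, z ^ n * (h z * s.indicator (fun _ => (1 : ℂ)) z) ∂μ
        = ∫ z in s, z ^ n * h z ∂μ := by
      rw [← integral_indicator hs]
      refine integral_congr_ae (ae_of_all _ fun z => ?_)
      by_cases hz : z ∈ s
      · simp [hz]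
      · simp [hz]
    rw [e1, hres, ← integral_indicator hs,
      integral_withDensity_eq_integral_toReal_smul hfm hft]
    refine integral_congr_ae (ae_of_all _ fun z => ?_)
    by_cases hz : z ∈ s
    · simp only [Set.indicator_of_mem hz, Complex.real_smul]
      ring
    · simp only [Set.indicator_of_notMem hz, smul_zero, mul_zero]

/-- F4 -/
theorem f4 : S_F4a → S_F4c → S_F4 := by
  intro hA hC K _ _ _ W hW hv y μ hμ hsph hmom
  set lam : Measure ℂ := Measure.map (fun t : ℝ => Complex.exp ((t : ℂ) * Complex.I))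
        (volume.restrict (Set.Ioc 0 (2 * Real.pi))) with hlam
  have hlf : IsFiniteMeasure lam := by
    rw [hlam]
    infer_instance
  obtain ⟨s, hs, h1, h2⟩ := Measure.mutuallySingular_singularPart μ lam
  refine ⟨s, hs, ?_, h2⟩
  obtain ⟨v, hv1, hv2⟩ := hC K W hW y μ hμ hsph hmom s hs
  have hv0 : v = 0 := by
    refine hv v fun w => ?_
    obtain ⟨h, hh, hh2⟩ := hv2 w
    have hint : Integrable h μ := hh.integrable (by norm_num)
    obtain ⟨g, hg, hgn⟩ := int_key μ lam s hs h1 h hint
    have h3 := hA g hg
    refine h3.congr fun n => ?_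
    rw [hh2 n, hgn n]
  rw [hv0, norm_zero] at hv1
  have h4 : (μ s).toReal = 0 := by
    rw [← hv1]
    norm_num
  rcases (ENNReal.toReal_eq_zero_iff _).1 h4 with h5 | h5
  · exact h5
  · exact absurd h5 (measure_ne_top μ s)

end Pool.Agent.W563.PB.F4
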